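import Pool.Agent.N557.QW.Stm

/-!
# Reduced words in the double of a group over a subgroup
-/

set_option autoImplicit false

namespace Pool.Agent.N335.QWP

open Pool.Agent.N557.QW

section

variable {G : Type} [Group G] {K : Subgroup G}

/-- Elements of the double of `G` over `K` given by a reduced word. -/
def Good (K : Subgroup G) (γ : Monoid.PushoutI (fun _ : Fin 2 => K.subtype)) : Prop :=
  (∃ k : K, γ = Monoid.PushoutI.base (fun _ : Fin 2 => K.subtype) k) ∨
  ∃ L : List (Fin 2 × G), L ≠ [] ∧ L.IsChain (fun a b => a.1 ≠ b.1) ∧ (∀ l ∈ L, l.2 ∉ K) ∧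
    γ = (L.map fun l => Monoid.PushoutI.of (φ := fun _ : Fin 2 => K.subtype) l.1 l.2).prod

theorem of_base (i : Fin 2) (k : K) :
    Monoid.PushoutI.of (φ := fun _ : Fin 2 => K.subtype) i (k : G) =
      Monoid.PushoutI.base (fun _ : Fin 2 => K.subtype) k :=
  Monoid.PushoutI.of_apply_eq_base (fun _ : Fin 2 => K.subtype) i k

theorem mul_not_mem {k g : G} (hk : k ∈ K) (hg : g ∉ K) : k * g ∉ K := by
  intro h
  exact hg (by simpa using K.mul_mem (K.inv_mem hk) h)

theorem good_base_mul (k : K) (γ : Monoid.PushoutI (fun _ : Fin 2 => K.subtype))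
    (h : Good K γ) : Good K (Monoid.PushoutI.base (fun _ : Fin 2 => K.subtype) k * γ) := by
  rcases h with ⟨k', rfl⟩ | ⟨L, hL, hc, hm, rfl⟩
  · exact Or.inl ⟨k * k', by rw [map_mul]⟩
  · right
    rcases L with _ | ⟨⟨j, x⟩, L⟩
    · exact absurd rfl hL
    refine ⟨(j, k.1 * x) :: L, by simp, ?_, ?_, ?_⟩
    · rw [List.isChain_cons] at hc ⊢
      exact hc
    · intro l hl
      rcases List.mem_cons.1 hl with rfl | hl
      · exact mul_not_mem k.2 (hm (j, x) (by simp))
      · exact hm l (List.mem_cons_of_mem _ hl)
    · rw [List.map_cons, List.prod_cons, List.map_cons, List.prod_cons, ← mul_assoc,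
        ← of_base j k, ← map_mul]

theorem good_of_mul (i : Fin 2) (g : G) (γ : Monoid.PushoutI (fun _ : Fin 2 => K.subtype))
    (h : Good K γ) :
    Good K (Monoid.PushoutI.of (φ := fun _ : Fin 2 => K.subtype) i g * γ) := by
  by_cases hg : g ∈ K
  · have := good_base_mul ⟨g, hg⟩ γ h
    rwa [← of_base i ⟨g, hg⟩] at this
  rcases h with ⟨k', rfl⟩ | ⟨L, hL, hc, hm, rfl⟩
  · right
    refine ⟨[(i, g * k'.1)], by simp, List.isChain_singleton _, ?_, ?_⟩
    · intro l hl
      rw [List.mem_singleton] at hl
      subst hl
      intro h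
      exact hg (by simpa using K.mul_mem h (K.inv_mem k'.2))
    · rw [List.map_singleton, List.prod_singleton, map_mul, of_base i k']
  · rcases L with _ | ⟨⟨j, x⟩, L⟩
    · exact absurd rfl hL
    by_cases hij : i = j
    · subst hij
      have e : Monoid.PushoutI.of (φ := fun _ : Fin 2 => K.subtype) i g *
          (((i, x) :: L).map fun l =>
            Monoid.PushoutI.of (φ := fun _ : Fin 2 => K.subtype) l.1 l.2).prod =
          Monoid.PushoutI.of (φ := fun _ : Fin 2 => K.subtype) i (g * x) *
          (L.map fun l => Monoid.PushoutI.of (φ := fun _ : Fin 2 => K.subtype) l.1 l.2).prod := by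
        rw [List.map_cons, List.prod_cons, map_mul, mul_assoc]
      rw [e]
      by_cases hgx : g * x ∈ K
      · have e2 := of_base i ⟨g * x, hgx⟩
        rw [show Monoid.PushoutI.of (φ := fun _ : Fin 2 => K.subtype) i (g * x) =
          Monoid.PushoutI.base (fun _ : Fin 2 => K.subtype) ⟨g * x, hgx⟩ from e2]
        apply good_base_mul
        by_cases hL' : L = []
        · subst hL'
          exact Or.inl ⟨1, by simp⟩
        · right
          refine ⟨L, hL', ?_, fun l hl => hm l (List.mem_cons_of_mem _ hl), rfl⟩
          exact hc.tail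
      · right
        refine ⟨(i, g * x) :: L, by simp, ?_, ?_, ?_⟩
        · rw [List.isChain_cons] at hc ⊢
          exact hc
        · intro l hl
          rcases List.mem_cons.1 hl with rfl | hl
          · exact hgx
          · exact hm l (List.mem_cons_of_mem _ hl)
        · rw [List.map_cons, List.prod_cons]
    · right
      refine ⟨(i, g) :: (j, x) :: L, by simp, ?_, ?_, ?_⟩
      · rw [List.isChain_cons_cons]
        exact ⟨hij, hc⟩
      · intro l hl
        rcases List.mem_cons.1 hl with rfl | hl
        · exact hg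
        · exact hm l hl
      · rw [List.map_cons (l := (j, x) :: L), List.prod_cons]

theorem good_all (γ : Monoid.PushoutI (fun _ : Fin 2 => K.subtype)) : Good K γ := by
  have key : ∀ x y : Monoid.PushoutI (fun _ : Fin 2 => K.subtype), Good K y → Good K (x * y) := by
    intro x
    induction x using Monoid.PushoutI.induction_on with
    | of i g => exact fun y hy => good_of_mul i g y hy
    | base h => exact fun y hy => good_base_mul h y hy
    | mul x y ihx ihy =>
      intro z hz
      rw [mul_assoc]
      exact ihx _ (ihy _ hz)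
  have := key γ 1 (Or.inl ⟨1, by simp⟩)
  rwa [mul_one] at this

end

theorem t_rdc : S_RDC := by
  intro G _ K
  constructor
  · intro n i g hi hg h1
    have hφ : ∀ i : Fin 2, Function.Injective ((fun _ : Fin 2 => K.subtype) i) := fun _ =>
      K.subtype_injective
    let w : Monoid.CoprodI.Word (fun _ : Fin 2 => G) :=
      { toList := List.ofFn fun j => (⟨i j, g j⟩ : Σ _ : Fin 2, G)
        ne_one := by
          intro l hl
          rw [List.mem_ofFn] at hl
          obtain ⟨j, rfl⟩ := hl
          intro h
          exact hg j ((show g j = 1 from h) ▸ K.one_mem)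
        chain_ne := by
          rw [List.isChain_ofFn]
          intro j hj
          exact hi ⟨j, by omega⟩ }
    have hw : Monoid.PushoutI.Reduced (fun _ : Fin 2 => K.subtype) w := by
      intro l hl
      have hl' : l ∈ List.ofFn fun j => (⟨i j, g j⟩ : Σ _ : Fin 2, G) := hl
      rw [List.mem_ofFn] at hl'
      obtain ⟨j, rfl⟩ := hl'
      rw [Subgroup.range_subtype]
      exact hg j
    have hp : Monoid.PushoutI.ofCoprodI (φ := fun _ : Fin 2 => K.subtype) w.prod = 1 := by
      rw [← h1, Monoid.CoprodI.Word.prod, map_list_prod, List.map_map]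
      change (List.map _ (List.ofFn fun j => (⟨i j, g j⟩ : Σ _ : Fin 2, G))).prod = _
      rw [List.map_ofFn]
      congr 1
    have := hw.eq_empty_of_mem_range hφ (by rw [hp]; exact Subgroup.one_mem _)
    have h2 := congrArg Monoid.CoprodI.Word.toList this
    have h3 : (List.ofFn fun j => (⟨i j, g j⟩ : Σ _ : Fin 2, G)).length = 0 := by
      change w.toList.length = 0
      rw [h2]
      rfl
    rw [List.length_ofFn] at h3
    omega
  · intro γ
    rcases good_all γ with h | ⟨L, hL, hc, hm, rfl⟩
    · exact Or.inl h
    · right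
      obtain ⟨n, hn⟩ : ∃ n, L.length = n + 1 :=
        ⟨L.length - 1, by have := List.length_pos_iff.2 hL; omega⟩
      have hL' : List.ofFn (fun j : Fin (n + 1) => L[j.1]'(by omega)) = L := by
        apply List.ext_getElem
        · rw [List.length_ofFn, hn]
        · intro k h1 h2
          rw [List.getElem_ofFn]
      refine ⟨n, fun j => (L[j.1]'(by omega)).1, fun j => (L[j.1]'(by omega)).2, ?_, ?_, ?_⟩
      · intro j
        rw [← hL', List.isChain_ofFn] at hc
        exact hc j.1 (by omega)
      · intro j
        exact hm _ (List.getElem_mem _)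
      · conv_lhs => rw [← hL']
        rw [List.map_ofFn]
        rfl

end Pool.Agent.N335.QWP
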